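import Pool.Agent.H22.RigidLifts
import Pool.Agent.H22.Hom
import Pool.Agent.H13.Label
import Pool.Graph.R_pool_sql_team_seeded_63374d34.N68.Corner.Cover
import Pool.Graph.R_pool_sql_team_seeded_5cf16337.Results.MP_169869_co.ThreeSlopes

/-!
# Corner-free sets from integer lifts: the limits of the method

The largest known corner-free sets in `(F_2^n)²` come from integer lifts: the points `x`, `y` and
`x + y` are lifted to integer vectors `α x`, `β y`, `γ (x + y)`, and one takes pairs with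
`α x + β y = γ (x + y)`. We show a power-saving bound for all sets of this kind, corner-free or
not, and for unions of few of them: a union of `T` lifted sets has at most `T (2^n)^(82/45)`
elements. Conversely `(F_2^n)²` is a union of `(2/√3 + o(1))^n` lifted corner-free sets, one of
which has `(2√3 - o(1))^n` elements.

Proof of the bound: the difference `α x - β y` determines its reduction `x + y`, hence
`γ (x + y) = α x + β y` and then `x` and `y`. So the sums-differences inequality for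
`{(α x, β y)}` applies.

More generally the rows, the columns and the diagonals may be labelled by elements of an arbitrary
group `Γ`, by means of three functions `a, b, c : F_2^n → Γ`. If `a (x) b (y) c (x + y)⁻¹` has at
most `M` values on `A` and, for one of the three functions, the equations `(a (x) g)² = h` have at
most `K` solutions `x`, then `|A|^6 ≤ M^6 K 2^(11 n)` (theorem of helper13). So lifts to `(ℤ/4)^n`
do not give more than `(2^n)^(11/6)` elements.
-/

set_option autoImplicit false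

namespace Pool.Agent.Results.MP_db4732_co.IntegerLifts

open Finset Filter Topology Pool.Agent.H22.RigidLifts Pool.Agent.N68.Corner

/-- The group `F_2^n`. -/
abbrev G (n : ℕ) : Type := Fin n → ZMod 2

/-- `A` contains no nontrivial corner `(x, y), (x, y + z), (x + z, y)`, `z ≠ 0`. -/
def NoCorner {n : ℕ} (A : Finset (G n × G n)) : Prop :=
  ∀ x y z : G n, z ≠ 0 → ¬ ((x, y) ∈ A ∧ (x, y + z) ∈ A ∧ (x + z, y) ∈ A)

/-- `A` is a lifted set: there are a torsion-free abelian group `V` (for instance `ℤ^d`), a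
homomorphism `π : V → F_2^n` (for instance the reduction modulo `2`) and three right inverses
`α`, `β`, `γ` of `π` (arbitrary lifts of the elements of `F_2^n`) with
`α x + β y = γ (x + y)` for all `(x, y) ∈ A`. -/
def Lifted {n : ℕ} (A : Finset (G n × G n)) : Prop :=
  ∃ (V : Type) (_ : AddCommGroup V) (_ : IsAddTorsionFree V) (π : V →+ G n) (α β γ : G n → V),
    (∀ x, π (α x) = x) ∧ (∀ x, π (β x) = x) ∧ (∀ x, π (γ x) = x) ∧
      ∀ p ∈ A, α p.1 + β p.2 = γ (p.1 + p.2)

lemma add_self_G {n : ℕ} (x : G n) : x + x = 0 := by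
  funext i
  exact CharTwo.add_self_eq_zero (x i)

lemma sub_eq_add_G {n : ℕ} (x y : G n) : x - y = x + y := by
  rw [sub_eq_iff_eq_add, add_assoc, add_self_G, add_zero]

/-- **The upper bound.** -/
theorem card_lifted {n : ℕ} (A : Finset (G n × G n)) (hA : Lifted A) :
    (A.card : ℝ) ≤ ((2 : ℝ) ^ n) ^ (82 / 45 : ℝ) := by
  classical
  obtain ⟨V, _, _, π, α, β, γ, hα, hβ, hγ, hrel⟩ := hA
  -- the subgroup generated by the lifts
  set F : Set V := Set.range α ∪ Set.range β with hF
  have hFfin : F.Finite := (Set.finite_range α).union (Set.finite_range β)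
  let H := AddSubgroup.closure F
  let a : G n → H := fun x => ⟨α x, AddSubgroup.subset_closure (Or.inl ⟨x, rfl⟩)⟩
  let b : G n → H := fun x => ⟨β x, AddSubgroup.subset_closure (Or.inr ⟨x, rfl⟩)⟩
  obtain ⟨φ, hφ⟩ := Pool.Agent.H22.Hom.exists_hom_closure F hFfin
    (univ.image (fun p : G n × G n => a p.1 - b p.2))
  set B : Finset (ℤ × ℤ) := A.image (fun p => (φ (a p.1), φ (b p.2))) with hB
  have hinj : Set.InjOn (fun p : G n × G n => φ (a p.1) - φ (b p.2)) A := by
    intro p hp q hq h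
    simp only [← map_sub] at h
    have h1 := hφ (mem_coe.2 (mem_image_of_mem _ (mem_univ p)))
      (mem_coe.2 (mem_image_of_mem _ (mem_univ q))) h
    have h2 : α p.1 - β p.2 = α q.1 - β q.2 := congrArg Subtype.val h1
    have h3 : p.1 + p.2 = q.1 + q.2 := by
      have := congrArg π h2
      rwa [map_sub, map_sub, hα, hβ, hα, hβ, sub_eq_add_G, sub_eq_add_G] at this
    have h4 : α p.1 + β p.2 = α q.1 + β q.2 := by
      rw [hrel p hp, hrel q hq, h3]
    have h5 : (2 : ℕ) • α p.1 = (2 : ℕ) • α q.1 := by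
      have e : ∀ u v : V, (2 : ℕ) • u = (u + v) + (u - v) := by
        intro u v
        rw [two_nsmul]
        abel
      rw [e (α p.1) (β p.2), e (α q.1) (β q.2), h4, h2]
    have h6 : α p.1 = α q.1 := nsmul_right_injective two_ne_zero h5
    have h7 : p.1 = q.1 := by rw [← hα p.1, h6, hα]
    have h8 : p.2 = q.2 := by
      rw [h7] at h3
      exact add_left_cancel h3
    exact Prod.ext h7 h8
  have key := (Pool.Agent.Results.MP_169869_co.ThreeSlopes.result B).2
  have e : ∀ (k : ℚ) (l : G n × G n → ℤ),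
      (∀ p, (φ (a p.1) : ℚ) + k * (φ (b p.2) : ℚ) = (l p : ℚ)) →
      (Pool.Agent.Results.MP_169869_co.ThreeSlopes.proj k B).card = (A.image l).card := by
    intro k l hl
    have : Pool.Agent.Results.MP_169869_co.ThreeSlopes.proj k B =
        (A.image l).image (fun w : ℤ => (w : ℚ)) := by
      unfold Pool.Agent.Results.MP_169869_co.ThreeSlopes.proj
      rw [hB, image_image, image_image]
      apply image_congr
      intro p _
      exact hl p
    rw [this, card_image_of_injective _ Int.cast_injective]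
  have e' : (Pool.Agent.Results.MP_169869_co.ThreeSlopes.projInf B).card =
      (A.image (fun p => φ (b p.2))).card := by
    have : Pool.Agent.Results.MP_169869_co.ThreeSlopes.projInf B =
        (A.image (fun p => φ (b p.2))).image (fun w : ℤ => (w : ℚ)) := by
      unfold Pool.Agent.Results.MP_169869_co.ThreeSlopes.projInf
      rw [hB, image_image, image_image]
      rfl
    rw [this, card_image_of_injective _ Int.cast_injective]
  have hle : ∀ (f : G n × G n → G n) (g : G n × G n → ℤ),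
      (∀ p ∈ A, ∀ q ∈ A, f p = f q → g p = g q) → ((A.image g).card : ℝ) ≤ (2 : ℝ) ^ n := by
    intro f g hfg
    have h1 : (A.image g).card ≤ (A.image f).card := by
      choose! s hs using fun (w : ℤ) (hw : w ∈ A.image g) => mem_image.1 hw
      apply card_le_card_of_injOn (fun w => f (s w))
      · intro w hw
        exact mem_coe.2 (mem_image_of_mem _ (hs w (mem_coe.1 hw)).1)
      · intro w hw w' hw' h
        rw [← (hs w (mem_coe.1 hw)).2, ← (hs w' (mem_coe.1 hw')).2]
        exact hfg _ (hs w (mem_coe.1 hw)).1 _ (hs w' (mem_coe.1 hw')).1 h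
    have h2 : (A.image f).card ≤ 2 ^ n := by
      have := card_le_univ (A.image f)
      rwa [Fintype.card_fun, ZMod.card, Fintype.card_fin] at this
    exact_mod_cast h1.trans h2
  have h0 := hle Prod.fst (fun p => φ (a p.1)) (fun p _ q _ h => by simp only [h])
  have hi := hle Prod.snd (fun p => φ (b p.2)) (fun p _ q _ h => by simp only [h])
  have h1 := hle (fun p => p.1 + p.2) (fun p => φ (a p.1) + φ (b p.2)) (fun p hp q hq h => by
    simp only [← map_add]
    congr 1
    apply Subtype.ext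
    show α p.1 + β p.2 = α q.1 + β q.2
    rw [hrel p hp, hrel q hq, h])
  rw [e (-1) (fun p => φ (a p.1) - φ (b p.2)) (fun p => by push_cast; ring),
    e 0 (fun p => φ (a p.1)) (fun p => by ring),
    e 1 (fun p => φ (a p.1) + φ (b p.2)) (fun p => by push_cast; ring), e',
    card_image_of_injOn hinj] at key
  exact key.trans (Real.rpow_le_rpow (le_max_of_le_right (Nat.cast_nonneg _))
    (max_le (max_le h0 h1) hi) (by norm_num))

/-! ### the construction -/

/-- reduction modulo `2` -/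
def redHom (n : ℕ) : (Fin n → ℤ) →+ G n where
  toFun := red 2
  map_zero' := by
    funext i
    simp [red]
  map_add' := red_add 2

lemma red_val {n : ℕ} (x : G n) : red 2 (fun i => ((x i).val : ℤ)) = x := by
  funext i
  simp [red]

/-- a right inverse of the reduction with prescribed values -/
lemma exists_section {n : ℕ} (U : Finset (Fin n → ℤ))
    (hU : ∀ u ∈ U, ∀ v ∈ U, red 2 u = red 2 v → u = v) :
    ∃ α : G n → (Fin n → ℤ), (∀ x, red 2 (α x) = x) ∧ ∀ u ∈ U, α (red 2 u) = u := by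
  classical
  have h : ∀ x : G n, ∃ w : Fin n → ℤ, red 2 w = x ∧ ∀ u ∈ U, red 2 u = x → w = u := by
    intro x
    by_cases hx : ∃ u ∈ U, red 2 u = x
    · obtain ⟨u, hu, rfl⟩ := hx
      exact ⟨u, rfl, fun v hv e => hU u hu v hv e.symm⟩
    · exact ⟨fun i => ((x i).val : ℤ), red_val x, fun u hu e => absurd ⟨u, hu, e⟩ hx⟩
  choose α h1 h2 using h
  exact ⟨α, h1, fun u hu => h2 _ u hu rfl⟩

/-- rigid sets of pairs with unique lifts give corner-free lifted sets -/
lemma of_lifts {n : ℕ} (H : Finset ((Fin n → ℤ) × (Fin n → ℤ))) (hH : UniqueLifts 2 H) {R : ℤ}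
    (hR : ∀ t ∈ H, nrm t.1 = R ∧ nrm t.2 = R ∧ nrm (t.1 + t.2) = R) :
    ∃ A : Finset (G n × G n), Lifted A ∧ CornerFree A ∧ A.card = H.card := by
  classical
  obtain ⟨h1, h2, h3⟩ := hH
  obtain ⟨α, hα, hα'⟩ := exists_section (H.image Prod.fst) (by
    intro u hu v hv e
    obtain ⟨t, ht, rfl⟩ := mem_image.1 hu
    obtain ⟨t', ht', rfl⟩ := mem_image.1 hv
    exact h1 t ht t' ht' e)
  obtain ⟨β, hβ, hβ'⟩ := exists_section (H.image Prod.snd) (by
    intro u hu v hv e
    obtain ⟨t, ht, rfl⟩ := mem_image.1 hu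
    obtain ⟨t', ht', rfl⟩ := mem_image.1 hv
    exact h2 t ht t' ht' e)
  obtain ⟨γ, hγ, hγ'⟩ := exists_section (H.image (fun t => t.1 + t.2)) (by
    intro u hu v hv e
    obtain ⟨t, ht, rfl⟩ := mem_image.1 hu
    obtain ⟨t', ht', rfl⟩ := mem_image.1 hv
    exact h3 t ht t' ht' e)
  refine ⟨H.image (fun t => (red 2 t.1, red 2 t.2)), ?_, ?_, ?_⟩
  · refine ⟨Fin n → ℤ, inferInstance, inferInstance, redHom n, α, β, γ, hα, hβ, hγ, ?_⟩
    intro p hp
    obtain ⟨t, ht, rfl⟩ := mem_image.1 hp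
    show α (red 2 t.1) + β (red 2 t.2) = γ (red 2 t.1 + red 2 t.2)
    rw [hα' _ (mem_image_of_mem _ ht), hβ' _ (mem_image_of_mem _ ht), ← red_add,
      hγ' _ (mem_image_of_mem (fun t : (Fin n → ℤ) × (Fin n → ℤ) => t.1 + t.2) ht)]
  · intro x y z q1 q2 q3
    obtain ⟨t, ht, e⟩ := mem_image.1 q1
    obtain ⟨t', ht', e'⟩ := mem_image.1 q2
    obtain ⟨t'', ht'', e''⟩ := mem_image.1 q3
    simp only [Prod.mk.injEq] at e e' e''
    have w1 : t'.1 = t.1 := h1 t' ht' t ht (by rw [e'.1, e.1])
    have w2 : t''.2 = t.2 := h2 t'' ht'' t ht (by rw [e''.2, e.2])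
    have w3 : t''.1 + t''.2 = t'.1 + t'.2 := h3 t'' ht'' t' ht' (by
      rw [red_add, red_add, e''.1, e''.2, e'.1, e'.2]
      abel)
    set d := t'.2 - t.2 with hd
    have v1 : t'.2 = t.2 + d := by rw [hd]; abel
    have v2 : t''.1 = t.1 + d := by
      rw [w2, w1, v1] at w3
      have : t''.1 = t.1 + (t.2 + d) - t.2 := by rw [← w3]; abel
      rw [this]; abel
    have hd0 : d = 0 := by
      apply rigid t.1 t.2 d R
      · exact (hR t ht).1
      · exact (hR t ht).2.1
      · exact (hR t ht).2.2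
      · rw [← v1]; exact (hR t' ht').2.1
      · rw [← v2]; exact (hR t'' ht'').1
      · have := (hR t' ht').2.2
        rw [w1, v1] at this
        rw [← this]
        congr 1
        abel
    have h5 : y + z = y := by
      rw [← e'.2, v1, hd0, add_zero, e.2]
    exact left_eq_add.1 h5.symm
  · apply card_image_of_injOn
    intro t ht t' ht' h
    simp only [Prod.mk.injEq] at h
    exact Prod.ext (h1 t ht t' ht' h.1) (h2 t ht t' ht' h.2)

lemma lifted_translate {n : ℕ} {A : Finset (G n × G n)} (hA : Lifted A) (t : G n × G n) :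
    Lifted (A.image (fun p => p + t)) := by
  classical
  obtain ⟨V, i1, i2, π, α, β, γ, hα, hβ, hγ, hrel⟩ := hA
  refine ⟨V, i1, i2, π, fun x => α (x - t.1) + α t.1, fun x => β (x - t.2) + β t.2,
    fun x => γ (x - t.1 - t.2) + (α t.1 + β t.2), ?_, ?_, ?_, ?_⟩
  · intro x
    rw [map_add, hα, hα, sub_add_cancel]
  · intro x
    rw [map_add, hβ, hβ, sub_add_cancel]
  · intro x
    rw [map_add, map_add, hγ, hα, hβ]
    abel
  · intro p hp
    obtain ⟨q, hq, rfl⟩ := mem_image.1 hp
    simp only [Prod.fst_add, Prod.snd_add, add_sub_cancel_right]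
    have e : q.1 + t.1 + (q.2 + t.2) - t.1 - t.2 = q.1 + q.2 := by abel
    rw [e, ← hrel q hq]
    abel

/-- large corner-free lifted sets -/
lemma exists_large (c : ℝ) (hc1 : 1 ≤ c) (hc : c < 2 * Real.sqrt 3) :
    ∃ n0 : ℕ, ∀ n, n0 ≤ n → ∃ A : Finset (G n × G n), Lifted A ∧ CornerFree A ∧
      c ^ n ≤ A.card := by
  obtain ⟨n0, h⟩ := exists_lifts 2 c hc1 (by push_cast; linarith)
  refine ⟨n0, fun n hn => ?_⟩
  obtain ⟨H, h1, ⟨R, h2⟩, h3⟩ := h n hn
  obtain ⟨A, hA, hA', hA''⟩ := of_lifts H h1 h2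
  exact ⟨A, hA, hA', by rw [hA'']; exact h3⟩

lemma noCorner_of {n : ℕ} {A : Finset (G n × G n)} (h : CornerFree A) : NoCorner A :=
  fun x y z hz hh => hz (h x y z hh.1 hh.2.1 hh.2.2)

/-- covering by few corner-free lifted sets -/
lemma exists_lifted_cover (c : ℝ) (hc : 2 / Real.sqrt 3 < c) :
    ∃ n0 : ℕ, ∀ n, n0 ≤ n →
      ∃ 𝒜 : Finset (Finset (G n × G n)),
        (𝒜.card : ℝ) ≤ c ^ n ∧ (∀ A ∈ 𝒜, Lifted A ∧ NoCorner A) ∧ (∀ p, ∃ A ∈ 𝒜, p ∈ A) ∧
          ∃ A ∈ 𝒜, (4 / c) ^ n ≤ (A.card : ℝ) := by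
  classical
  have hs : 0 < Real.sqrt 3 := by positivity
  have hs2 : Real.sqrt 3 * Real.sqrt 3 = 3 := Real.mul_self_sqrt (by norm_num)
  have hs3 : Real.sqrt 3 < 2 := by nlinarith
  -- it is enough to treat `c ≤ 4`
  obtain ⟨b, hb1, hb2⟩ : ∃ b, 2 / Real.sqrt 3 < b ∧ b < min c 2 := by
    apply _root_.exists_between
    rw [lt_min_iff]
    refine ⟨hc, ?_⟩
    rw [div_lt_iff₀ hs]
    nlinarith
  have hbc : b < c := hb2.trans_le (min_le_left _ _)
  have hb4 : b < 2 := hb2.trans_le (min_le_right _ _)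
  have hb0 : 1 < b := by
    refine lt_trans ?_ hb1
    rw [lt_div_iff₀ hs]
    linarith
  have hc0 : 0 < c := by linarith
  have ha : 4 / b < 2 * Real.sqrt 3 := by
    rw [div_lt_iff₀ hs] at hb1
    rw [div_lt_iff₀ (by linarith)]
    nlinarith
  obtain ⟨n1, h1⟩ := exists_large (4 / b) (by rw [le_div_iff₀ (by linarith)]; linarith) ha
  have hr : |b / c| < 1 := by
    rw [abs_of_nonneg (by positivity), div_lt_one hc0]
    exact hbc
  have hlim := tendsto_pow_const_mul_const_pow_of_abs_lt_one 1 hr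
  set M : ℝ := 2 * Real.log 2 + 1 with hM
  have hlog : 0 ≤ Real.log 2 := Real.log_nonneg (by norm_num)
  have hM0 : 0 < M := by linarith
  have hev := hlim.eventually (gt_mem_nhds (show (0 : ℝ) < 1 / M by positivity))
  obtain ⟨n2, hn2⟩ := eventually_atTop.1 hev
  refine ⟨max (max n1 n2) 1, fun n hn => ?_⟩
  obtain ⟨A, hAL, hA, hAc⟩ := h1 n ((le_max_left _ _).trans ((le_max_left _ _).trans hn))
  have hn2' := hn2 n ((le_max_right _ _).trans ((le_max_left _ _).trans hn))
  have hn' : 1 ≤ n := (le_max_right _ _).trans hn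
  have hnR : (1 : ℝ) ≤ n := by exact_mod_cast hn'
  have hHc : (Fintype.card (G n × G n) : ℝ) = 4 ^ n := by
    rw [Fintype.card_prod, Fintype.card_fun, ZMod.card, Fintype.card_fin]
    push_cast
    rw [← mul_pow]
    norm_num
  have hA0 : (0 : ℝ) < A.card := lt_of_lt_of_le (by positivity) hAc
  obtain ⟨k, t, ht, hk⟩ := cover_real A (by exact_mod_cast hA0)
  rw [hHc] at hk
  have hne : Nonempty (Fin k) := by
    obtain ⟨i, _⟩ := ht 0
    exact ⟨i⟩
  refine ⟨univ.image (fun i => A.image (fun p => p + t i)), ?_, ?_, ?_, ?_⟩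
  · have h3 : ((univ.image (fun i => A.image (fun p => p + t i))).card : ℝ) ≤ k := by
      have := card_image_le (s := (univ : Finset (Fin k))) (f := fun i => A.image (fun p => p + t i))
      rw [card_univ, Fintype.card_fin] at this
      exact_mod_cast this
    refine h3.trans (hk.trans ?_)
    have h4 : (4 : ℝ) ^ n / A.card ≤ b ^ n := by
      rw [div_le_iff₀ hA0]
      rw [div_pow, div_le_iff₀ (by positivity)] at hAc
      linarith
    have h5 : (1 : ℝ) ≤ b ^ n := one_le_pow₀ (by linarith)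
    have h8 : Real.log ((4 : ℝ) ^ n) = 2 * n * Real.log 2 := by
      rw [Real.log_pow, show (4 : ℝ) = 2 ^ 2 by norm_num, Real.log_pow]
      push_cast
      ring
    rw [h8]
    have h6 : 2 * n * Real.log 2 * ((4 : ℝ) ^ n / A.card) + 1 ≤ M * n * b ^ n := by
      have e1 : 2 * n * Real.log 2 * ((4 : ℝ) ^ n / A.card) ≤ 2 * n * Real.log 2 * b ^ n :=
        mul_le_mul_of_nonneg_left h4 (by positivity)
      have e2 : (1 : ℝ) ≤ n * b ^ n := by nlinarith
      calc _ ≤ 2 * n * Real.log 2 * b ^ n + n * b ^ n := by linarith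
        _ = M * n * b ^ n := by rw [hM]; ring
    have h7 : M * n * b ^ n ≤ c ^ n := by
      have hcn : 0 < c ^ n := by positivity
      rw [pow_one, div_pow, lt_div_iff₀ hM0, ← mul_div_assoc, div_mul_eq_mul_div,
        div_lt_one hcn] at hn2'
      calc M * n * b ^ n = n * b ^ n * M := by ring
        _ ≤ c ^ n := hn2'.le
    linarith
  · intro B hB
    obtain ⟨i, _, rfl⟩ := mem_image.1 hB
    exact ⟨lifted_translate hAL (t i), noCorner_of (hA.translate (t i))⟩
  · intro p
    obtain ⟨i, hi⟩ := ht p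
    exact ⟨_, mem_image.2 ⟨i, mem_univ _, rfl⟩, mem_image.2 ⟨p - t i, hi, sub_add_cancel _ _⟩⟩
  · obtain ⟨i⟩ := hne
    refine ⟨_, mem_image.2 ⟨i, mem_univ _, rfl⟩, ?_⟩
    rw [card_image_of_injective _ (add_left_injective (t i))]
    refine le_trans ?_ hAc
    apply pow_le_pow_left₀ (by positivity)
    exact div_le_div_of_nonneg_left (by norm_num) (by linarith) hbc.le

/-! ### labels in groups -/

/-- The statistic `a (x) b (y) c (x + y)⁻¹` has at most `M` values on `A`. -/
def Values {n : ℕ} {Γ : Type} [Group Γ] (M : ℕ) (a b c : G n → Γ) (A : Finset (G n × G n)) :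
    Prop :=
  Set.ncard ((fun p : G n × G n => a p.1 * b p.2 * (c (p.1 + p.2))⁻¹) '' A) ≤ M

/-- For all `g, h` in the group the equation `(a (x) g)^2 = h` has at most `K` solutions `x`. -/
def SqFib {n : ℕ} {Γ : Type} [Group Γ] (K : ℕ) (a : G n → Γ) : Prop :=
  ∀ g h : Γ, Set.ncard {x : G n | (a x * g) ^ 2 = h} ≤ K

lemma sixth {n M K : ℕ} {Γ : Type} [Group Γ] (a b c : G n → Γ) (A : Finset (G n × G n))
    (hM : Values M a b c A) (hK : SqFib K a ∨ SqFib K b ∨ SqFib K c) :
    (A.card : ℝ) ^ 6 ≤ M ^ 6 * K * 2 ^ (11 * n) := by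
  have h := Pool.Agent.H13.Label.main_values (fun x : G n => add_self_G x) A a b c M hM K hK
  have hc : (Fintype.card (G n) : ℝ) = 2 ^ n := by
    rw [Fintype.card_fun, ZMod.card, Fintype.card_fin]
    push_cast
    rfl
  rw [hc, ← pow_mul, mul_comm n 11] at h
  exact h

/-- lifts to groups in which the reduction kills the elements of order two -/
lemma weak_lifts {n : ℕ} {V : Type} [AddCommGroup V] (π : V →+ G n)
    (hπ : ∀ v : V, v + v = 0 → π v = 0) (α β γ : G n → V) (hα : ∀ x, π (α x) = x)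
    (A : Finset (G n × G n)) (hA : ∀ p ∈ A, α p.1 + β p.2 = γ (p.1 + p.2)) :
    (A.card : ℝ) ≤ ((2 : ℝ) ^ n) ^ (11 / 6 : ℝ) := by
  have hs : SqFib 1 (fun x => Multiplicative.ofAdd (α x)) := by
    intro g h
    rw [Set.ncard_le_one (Set.toFinite _)]
    intro x hx y hy
    simp only [Set.mem_setOf_eq] at hx hy
    have h1 : ((Multiplicative.ofAdd (α x)) * g) ^ 2 = ((Multiplicative.ofAdd (α y)) * g) ^ 2 := by
      rw [hx, hy]
    have h2 : α x + g.toAdd + (α x + g.toAdd) = α y + g.toAdd + (α y + g.toAdd) := by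
      have := congrArg Multiplicative.toAdd h1
      simpa [sq] using this
    have h3 : (α x - α y) + (α x - α y) = 0 := by
      have : (α x - α y) + (α x - α y) = (α x + g.toAdd + (α x + g.toAdd)) -
        (α y + g.toAdd + (α y + g.toAdd)) := by abel
      rw [this, h2, sub_self]
    have h4 := hπ _ h3
    rw [map_sub, hα, hα] at h4
    exact sub_eq_zero.1 h4
  have h := sixth (M := 1) (K := 1) (fun x => Multiplicative.ofAdd (α x))
    (fun x => Multiplicative.ofAdd (β x)) (fun x => Multiplicative.ofAdd (γ x)) A (by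
      rw [Values, Set.ncard_le_one (Set.toFinite _)]
      rintro _ ⟨p, hp, rfl⟩ _ ⟨q, hq, rfl⟩
      have e : ∀ p ∈ A, Multiplicative.ofAdd (α p.1) * Multiplicative.ofAdd (β p.2) *
          (Multiplicative.ofAdd (γ (p.1 + p.2)))⁻¹ = 1 := by
        intro p hp
        rw [← ofAdd_add, hA p hp, mul_inv_cancel]
      simp only
      rw [e p hp, e q hq]) (Or.inl hs)
  have h2 : (A.card : ℝ) ^ 6 ≤ (((2 : ℝ) ^ n) ^ (11 / 6 : ℝ)) ^ 6 := by
    calc (A.card : ℝ) ^ 6 ≤ _ := h
      _ = _ := by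
        rw [← Real.rpow_natCast (((2 : ℝ) ^ n) ^ (11 / 6 : ℝ)), ← Real.rpow_mul (by positivity)]
        have : (11 / 6 : ℝ) * ((6 : ℕ) : ℝ) = ((11 : ℕ) : ℝ) := by norm_num
        rw [this, Real.rpow_natCast, ← pow_mul, mul_comm n 11]
        norm_num
  exact le_of_pow_le_pow_left₀ (by norm_num) (by positivity) h2

/-- **Theorem.** (1) A union of `T` lifted sets has at most `T (2^n)^(82/45)` elements; the sets
need not be corner-free. (2) For every `c > 2/√3` and all large `n` the group `(F_2^n)²` is a union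
of at most `c^n` corner-free lifted sets, one of which has at least `(4/c)^n` elements.
(3) Let `a, b, c : F_2^n → Γ` be functions with values in a group. If `a (x) b (y) c (x + y)⁻¹`
has at most `M` values on `A ⊆ (F_2^n)²`, and for one of the three functions, say `a`, all the
equations `(a (x) g)² = h` have at most `K` solutions `x`, then `|A|^6 ≤ M^6 K 2^(11 n)`.
(4) In particular let `π` be a homomorphism from an abelian group `V` to `F_2^n` with `π v = 0`
whenever `2 v = 0` (for instance the reduction `(ℤ/4)^n → F_2^n`). If `α x + β y = γ (x + y)` on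
`A` and `α` is a right inverse of `π`, then `|A| ≤ (2^n)^(11/6)`. -/
theorem result :
    (∀ (n : ℕ) (𝒜 : Finset (Finset (G n × G n))), (∀ A ∈ 𝒜, Lifted A) →
      ((𝒜.biUnion id).card : ℝ) ≤ 𝒜.card * ((2 : ℝ) ^ n) ^ (82 / 45 : ℝ)) ∧
    (∀ c : ℝ, 2 / Real.sqrt 3 < c → ∃ n0 : ℕ, ∀ n, n0 ≤ n →
      ∃ 𝒜 : Finset (Finset (G n × G n)),
        (𝒜.card : ℝ) ≤ c ^ n ∧ (∀ A ∈ 𝒜, Lifted A ∧ NoCorner A) ∧ (∀ p, ∃ A ∈ 𝒜, p ∈ A) ∧
          ∃ A ∈ 𝒜, (4 / c) ^ n ≤ (A.card : ℝ)) ∧
    (∀ (n M K : ℕ) (Γ : Type) [Group Γ] (a b c : G n → Γ) (A : Finset (G n × G n)),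
      Values M a b c A → SqFib K a ∨ SqFib K b ∨ SqFib K c →
      (A.card : ℝ) ^ 6 ≤ M ^ 6 * K * 2 ^ (11 * n)) ∧
    (∀ (n : ℕ) (V : Type) [AddCommGroup V] (π : V →+ G n) (α β γ : G n → V)
      (A : Finset (G n × G n)), (∀ v : V, v + v = 0 → π v = 0) → (∀ x, π (α x) = x) →
      (∀ p ∈ A, α p.1 + β p.2 = γ (p.1 + p.2)) →
      (A.card : ℝ) ≤ ((2 : ℝ) ^ n) ^ (11 / 6 : ℝ)) := by
  refine ⟨fun n 𝒜 h => ?_, exists_lifted_cover,
    fun _ _ _ _ _ a b c A hM hK => sixth a b c A hM hK,
    fun _ _ _ π α β γ A hπ hα hA => weak_lifts π hπ α β γ hα A hA⟩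
  have h1 : ((𝒜.biUnion id).card : ℝ) ≤ ∑ A ∈ 𝒜, (A.card : ℝ) := by
    exact_mod_cast card_biUnion_le
  refine h1.trans ?_
  rw [← nsmul_eq_mul, ← sum_const]
  exact sum_le_sum fun A hA => card_lifted A (h A hA)

end Pool.Agent.Results.MP_db4732_co.IntegerLifts
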