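import Pool.Agent.H72.Corner.Cover
import Pool.Agent.H72.Corner.Data5b

set_option autoImplicit false

namespace Pool.Agent.Results.MP_db4732_co.RecordLowerBound

/-- `A ⊆ F_2^n × F_2^n` contains no nontrivial corner `(x,y), (x,y+z), (x+z,y)`, `z ≠ 0`. -/
def NoCorner {n : ℕ} (A : Finset ((Fin n → ZMod 2) × (Fin n → ZMod 2))) : Prop :=
  ∀ x y z : Fin n → ZMod 2, z ≠ 0 → ¬ ((x, y) ∈ A ∧ (x, y + z) ∈ A ∧ (x + z, y) ∈ A)

/-- (1) For all large `n`, `(F_2^n)^2` is covered by at most `1.1531^n` corner-free sets, each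
with at least `3.46905^n` elements. (2) If every corner-free `A ⊆ (F_2^n)^2`, for every `n ≥ 1`,
has at most `C (4^n)^(1-c)` elements, then `c ≤ 0.10273`. -/
theorem result :
    (∃ n0 : ℕ, ∀ n : ℕ, n0 ≤ n →
      ∃ 𝒜 : Finset (Finset ((Fin n → ZMod 2) × (Fin n → ZMod 2))),
        (𝒜.card : ℝ) ≤ (1.1531 : ℝ) ^ n ∧
        (∀ A ∈ 𝒜, NoCorner A ∧ (3.46905 : ℝ) ^ n ≤ (A.card : ℝ)) ∧
        ∀ v, ∃ A ∈ 𝒜, v ∈ A) ∧
    (∀ C c : ℝ, (∀ n : ℕ, 1 ≤ n → ∀ A : Finset ((Fin n → ZMod 2) × (Fin n → ZMod 2)),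
      NoCorner A → (A.card : ℝ) ≤ C * (4 : ℝ) ^ ((1 - c) * n)) → c ≤ 0.10273) := by
  refine ⟨?_, ?_⟩
  · refine Pool.Agent.H72.Corner.cover_of_cert (p := 3407) (q := 2038) (by norm_num)
      Pool.Agent.H72.Corner.Data5b.main_cert (β := 3.46905) (c := 1.1531) (by norm_num)
      (by norm_num) ?_ (by norm_num)
    rw [show (3.46905 : ℝ) = 346905 / 100000 by norm_num, div_pow, div_le_iff₀ (by positivity)]
    have h0 : (346905 : ℕ) ^ 3407 ≤ 2 ^ (3 * 2038) * 100000 ^ 3407 := by decide +kernel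
    exact_mod_cast h0
  · intro C c h
    refine (Pool.Agent.H72.Corner.saving_of_cert (p := 3407) (q := 2038) (by norm_num)
      Pool.Agent.H72.Corner.Data5b.main_cert h).trans ?_
    norm_num

end Pool.Agent.Results.MP_db4732_co.RecordLowerBound
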