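import Pool.Agent.H148.SR.Core

/-!
# The slice rank method gives nothing for corners

For the power saving bound for sets without three-term progressions in `F_p^n` one uses a tensor `f`
which vanishes outside of the progressions, does not vanish at the constant triples, and has
small slice rank. We show that this is impossible for corners, and for the corners of
all dimensions: let `G` be any finite abelian group, `d ≥ 2`, and let `f : (G^d)^(d+1) → F` be *any*
function, with values in any field, which does not vanish at the constant tuples and vanishes at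
all tuples which are not corners `p, p + z e_1, …, p + z e_d`. Then the slice rank of `f` is
`|G|^d`, and the slice rank of the restriction of `f` to a subset `X` of `G^d` is `|X|`. The same
holds for weighted slice ranks (`G`-stable rank): if in some bases of the copies of `F^X`, with weights
on the basis vectors, all coefficients of `f` of total weight less than one vanish, then the sum of
the weights is at least `|X|`.

Proof. Let `u_0(p)` be the coordinates of `p` different from the first one, `u_1(p)` those
different from the second one, and `s(p)` the sum of all coordinates, all encoded by integers. In a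
corner the first two points have the same `u_0`, the first and the third the same `u_1`, the second
and the third the same `s`. For the lexicographic orders `(u_0, u_1)`, `(-u_0, s)`, `(-u_1, -s)` of
the first three points the constant tuples are maximal among all corners, so that the lower bound of
`Core.lean` applies.
-/

set_option autoImplicit false

namespace Pool.Agent.Results.MP_db4732_co.SliceRankBarrier

open Finset Pool.Agent.H148.SR

universe u v

/-- `x` is the corner `p, p + z e_0, …, p + z e_{d-1}` (trivial if `z = 0`) in `G^d` -/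
def IsCorner {G : Type u} [AddCommGroup G] {d : ℕ} (x : Fin (d + 1) → Fin d → G) : Prop :=
  ∃ (p : Fin d → G) (z : G), x 0 = p ∧ ∀ i : Fin d, x i.succ = p + Pi.single i z

/-- the corners in `G × G` -/
def IsCorner2 {G : Type u} [AddCommGroup G] (x : Fin 3 → G × G) : Prop :=
  ∃ a b z : G, x 0 = (a, b) ∧ x 1 = (a, b + z) ∧ x 2 = (a + z, b)

/-- a general criterion -/
theorem dominated {A : Type u} {F : Type v} [Field F] {k : ℕ} (i0 i1 i2 : Fin k)
    (h01 : i0 ≠ i1) (h02 : i0 ≠ i2) (h12 : i1 ≠ i2) (u0 u1 s : A → ℤ)
    (h1 : ∀ p q, u0 p = u0 q → u1 p = u1 q → p = q) (h2 : ∀ p q, u0 p = u0 q → s p = s q → p = q)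
    (h3 : ∀ p q, u1 p = u1 q → s p = s q → p = q) (f : (Fin k → A) → F)
    (hdiag : ∀ a, f (fun _ => a) ≠ 0)
    (hu0 : ∀ x, f x ≠ 0 → u0 (x i0) = u0 (x i1)) (hu1 : ∀ x, f x ≠ 0 → u1 (x i0) = u1 (x i2))
    (hs : ∀ x, f x ≠ 0 → s (x i1) = s (x i2))
    (hc : ∀ x a, f x ≠ 0 → x i0 = a → x i1 = a → x i2 = a → x = fun _ => a) :
    Dominated (O := ℤ ×ₗ ℤ) (fun i p => if i = i1 then toLex (- u0 p, s p) else
      if i = i2 then toLex (- u1 p, - s p) else toLex (u0 p, u1 p)) f := by
  refine ⟨?_, hdiag, ?_⟩
  · intro i p q hpq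
    dsimp only at hpq
    split_ifs at hpq <;> have h := Prod.ext_iff.mp (toLex.injective hpq) <;> dsimp only at h
    · exact h2 p q (by omega) h.2
    · exact h3 p q (by omega) (by omega)
    · exact h1 p q h.1 h.2
  · intro a x hx hle
    have e0 := hle i0
    have e1 := hle i1
    have e2 := hle i2
    simp only [h01, h02, h12, h12.symm, if_true, if_false, Prod.Lex.toLex_le_toLex] at e0 e1 e2
    have g0 := hu0 x hx
    have g1 := hu1 x hx
    have g2 := hs x hx
    have a0 : u0 (x i0) = u0 a := by omega
    have a1 : u1 (x i0) = u1 a := by omega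
    have a2 : s (x i1) = s a := by omega
    exact hc x a hx (h1 _ _ a0 a1) (h2 _ _ (by omega) a2) (h3 _ _ (by omega) (by omega))

theorem exists_enc (α : Type u) [Finite α] : ∃ e : α → ℤ, Function.Injective e := by
  have := Fintype.ofFinite α
  refine ⟨fun a => ((Fintype.equivFin α a : ℕ) : ℤ), fun a b h => ?_⟩
  dsimp only at h
  have h1 : (Fintype.equivFin α a : ℕ) = (Fintype.equivFin α b : ℕ) := by exact_mod_cast h
  exact (Fintype.equivFin α).injective (Fin.ext h1)

/-- corners in `G^d` -/
theorem dom_corner {G : Type u} [AddCommGroup G] [Finite G] {d : ℕ} (hd : 2 ≤ d)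
    (X : Finset (Fin d → G)) (F : Type v) [Field F] (f : (Fin (d + 1) → X) → F)
    (hdiag : ∀ a : X, f (fun _ => a) ≠ 0)
    (hsupp : ∀ x : Fin (d + 1) → X, f x ≠ 0 → IsCorner (fun i => (x i : Fin d → G))) :
    ∃ φ : Fin (d + 1) → X → ℤ ×ₗ ℤ, Dominated φ f := by
  classical
  obtain ⟨e, he⟩ := exists_enc (Fin d → G)
  obtain ⟨e', he'⟩ := exists_enc G
  let j0 : Fin d := ⟨0, by omega⟩
  let j1 : Fin d := ⟨1, by omega⟩
  have hj : j0 ≠ j1 := by simp [j0, j1, Fin.ext_iff]
  have hupd : ∀ (j : Fin d) (p q : Fin d → G),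
      e (Function.update p j 0) = e (Function.update q j 0) ↔ ∀ i, i ≠ j → p i = q i := by
    intro j p q
    rw [he.eq_iff]
    constructor
    · intro h i hi
      have := congrFun h i
      rwa [Function.update_of_ne hi, Function.update_of_ne hi] at this
    · intro h
      ext i
      by_cases hi : i = j
      · subst hi; rw [Function.update_self, Function.update_self]
      · rw [Function.update_of_ne hi, Function.update_of_ne hi, h i hi]
  have hsum : ∀ (j : Fin d) (p q : Fin d → G), (∀ i, i ≠ j → p i = q i) →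
      ∑ i, p i = ∑ i, q i → p = q := by
    intro j p q h1 h2
    ext i
    by_cases hi : i = j
    · subst hi
      rw [← Finset.add_sum_erase univ _ (mem_univ i), ← Finset.add_sum_erase univ q (mem_univ i),
        Finset.sum_congr rfl (fun l hl => h1 l (ne_of_mem_erase hl))] at h2
      exact add_right_cancel h2
    · exact h1 i hi
  refine ⟨_, dominated (0 : Fin (d + 1)) j0.succ j1.succ (Fin.succ_ne_zero _).symm
    (Fin.succ_ne_zero _).symm (fun h => hj (Fin.succ_injective _ h))
    (fun p : X => e (Function.update (p : Fin d → G) j0 0))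
    (fun p : X => e (Function.update (p : Fin d → G) j1 0))
    (fun p : X => e' (∑ i, (p : Fin d → G) i)) ?_ ?_ ?_ f hdiag ?_ ?_ ?_ ?_⟩
  · intro p q h1 h2
    rw [hupd] at h1 h2
    ext i
    by_cases hi : i = j0
    · subst hi; exact h2 j0 hj
    · exact h1 i hi
  · intro p q h1 h2
    rw [hupd] at h1
    exact Subtype.ext (hsum j0 _ _ h1 (he' h2))
  · intro p q h1 h2
    rw [hupd] at h1
    exact Subtype.ext (hsum j1 _ _ h1 (he' h2))
  · intro x hx
    obtain ⟨p, z, hp, hz⟩ := hsupp x hx
    beta_reduce at hp hz
    rw [hupd]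
    intro i hi
    rw [hp, hz j0]
    simp [hi]
  · intro x hx
    obtain ⟨p, z, hp, hz⟩ := hsupp x hx
    beta_reduce at hp hz
    rw [hupd]
    intro i hi
    rw [hp, hz j1]
    simp [hi]
  · intro x hx
    obtain ⟨p, z, hp, hz⟩ := hsupp x hx
    beta_reduce at hp hz
    congr 1
    rw [hz j0, hz j1]
    simp [Finset.sum_add_distrib]
  · intro x a hx h0 h1 h2
    obtain ⟨p, z, hp, hz⟩ := hsupp x hx
    beta_reduce at hp hz
    have hz0 : z = 0 := by
      have h3 := hz j0
      rw [h1, ← h0, hp] at h3
      have := congrFun h3 j0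
      simpa using this
    funext i
    refine Fin.cases ?_ (fun j => ?_) i
    · exact h0
    · apply Subtype.ext
      rw [hz j, hz0, Pi.single_zero, add_zero, ← hp, h0]

/-- corners in `G × G` -/
theorem dom_corner2 {G : Type u} [AddCommGroup G] [Finite G]
    (X : Finset (G × G)) (F : Type v) [Field F] (f : (Fin 3 → X) → F)
    (hdiag : ∀ a : X, f (fun _ => a) ≠ 0)
    (hsupp : ∀ x : Fin 3 → X, f x ≠ 0 → IsCorner2 (fun i => (x i : G × G))) :
    ∃ φ : Fin 3 → X → ℤ ×ₗ ℤ, Dominated φ f := by
  classical
  obtain ⟨e, he⟩ := exists_enc G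
  refine ⟨_, dominated (0 : Fin 3) 1 2 (by decide) (by decide) (by decide)
    (fun p : X => e (p : G × G).1) (fun p : X => e (p : G × G).2)
    (fun p : X => e ((p : G × G).1 + (p : G × G).2)) ?_ ?_ ?_ f hdiag ?_ ?_ ?_ ?_⟩
  · intro p q h1 h2
    exact Subtype.ext (Prod.ext (he h1) (he h2))
  · intro p q h1 h2
    have h3 := he h1
    have h4 := he h2
    rw [h3] at h4
    exact Subtype.ext (Prod.ext h3 (add_left_cancel h4))
  · intro p q h1 h2
    have h3 := he h1
    have h4 := he h2
    rw [h3] at h4
    exact Subtype.ext (Prod.ext (add_right_cancel h4) h3)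
  · intro x hx
    obtain ⟨a, b, z, h0, h1, h2⟩ := hsupp x hx
    simp only [h0, h1]
  · intro x hx
    obtain ⟨a, b, z, h0, h1, h2⟩ := hsupp x hx
    simp only [h0, h2]
  · intro x hx
    obtain ⟨a, b, z, h0, h1, h2⟩ := hsupp x hx
    simp only [h1, h2]
    congr 1
    abel
  · intro x a _ h0 h1 h2
    funext i
    fin_cases i
    · exact h0
    · exact h1
    · exact h2

/-- **The slice rank method gives nothing for corners.** -/
theorem result (G : Type u) [AddCommGroup G] [Finite G] (F : Type v) [Field F] :
    -- corners in `G × G`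
    (∀ (X : Finset (G × G)) (f : (Fin 3 → X) → F), (∀ a : X, f (fun _ => a) ≠ 0) →
      (∀ x : Fin 3 → X, f x ≠ 0 → IsCorner2 (fun i => (x i : G × G))) →
      IsLeast {r : ℕ | SliceRankLE f r} X.card ∧
      ∀ (g : Fin 3 → X → X → F) (w : Fin 3 → X → ℝ), (∀ i, LinearIndependent F (g i)) →
        (∀ s : Fin 3 → X, ∑ i, w i (s i) < 1 → ∑ x : Fin 3 → X, f x * ∏ i, g i (s i) (x i) = 0) →
        (X.card : ℝ) ≤ ∑ i, ∑ s, w i s) ∧
    -- corners in `G ^ d`, `d ≥ 2`
    (∀ (d : ℕ), 2 ≤ d → ∀ (X : Finset (Fin d → G)) (f : (Fin (d + 1) → X) → F),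
      (∀ a : X, f (fun _ => a) ≠ 0) →
      (∀ x : Fin (d + 1) → X, f x ≠ 0 → IsCorner (fun i => (x i : Fin d → G))) →
      IsLeast {r : ℕ | SliceRankLE f r} X.card ∧
      ∀ (g : Fin (d + 1) → X → X → F) (w : Fin (d + 1) → X → ℝ),
        (∀ i, LinearIndependent F (g i)) →
        (∀ s : Fin (d + 1) → X, ∑ i, w i (s i) < 1 →
          ∑ x : Fin (d + 1) → X, f x * ∏ i, g i (s i) (x i) = 0) →
        (X.card : ℝ) ≤ ∑ i, ∑ s, w i s) := by
  classical
  refine ⟨?_, ?_⟩
  · intro X f hdiag hsupp
    obtain ⟨φ, hf⟩ := dom_corner2 X F f hdiag hsupp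
    have hcard : Fintype.card X = X.card := Fintype.card_coe X
    refine ⟨⟨?_, ?_⟩, ?_⟩
    · have := slices_card (A := X) (by omega : 0 < 3) f
      rwa [hcard] at this
    · intro r hr
      have := le_of_slices hf r hr
      rwa [hcard] at this
    · intro g w hg h0
      have := le_of_weights hf g
        (fun i => Matrix.linearIndependent_rows_iff_isUnit.mp (hg i)) w h0
      rwa [hcard] at this
  · intro d hd X f hdiag hsupp
    obtain ⟨φ, hf⟩ := dom_corner hd X F f hdiag hsupp
    have hcard : Fintype.card X = X.card := Fintype.card_coe X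
    refine ⟨⟨?_, ?_⟩, ?_⟩
    · have := slices_card (A := X) (by omega : 0 < d + 1) f
      rwa [hcard] at this
    · intro r hr
      have := le_of_slices hf r hr
      rwa [hcard] at this
    · intro g w hg h0
      have := le_of_weights hf g
        (fun i => Matrix.linearIndependent_rows_iff_isUnit.mp (hg i)) w h0
      rwa [hcard] at this

end Pool.Agent.Results.MP_db4732_co.SliceRankBarrier
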