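import Pool.Agent.H700.GN.Label

/-!
# Corner-free sets which are unions of sets of small factorization norm

`G` is any finite abelian group, for instance `F_2 ^ n`. The factorization norm (`γ₂` norm) of a
`0/1` matrix is at most `g` if it is a matrix of inner products of vectors of squared length at most
`g`. Large corner-free sets are not unions of few sets of small factorization norm: such a union of
`t` sets has at most `t 2 ^ (383 g ^ 4) |G| ^ (3 / 2)` points, and the exponent `3 / 2` is the best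
one, already for `t = g = 1`.

The proof rests on a sparse form of the theorem of Balla, Hambardzumyan and Tomon: a Boolean matrix
with `e` ones in `m` rows and `n` columns and with `γ₂` norm at most `g` contains a rectangle of
ones of area at least `2 ^ (- 766 g ^ 4) e ^ 2 / (m n)` (`Pool/Agent/H700/GN`). Opposite points of
such a rectangle with the same `x - y` give a corner.

* Dense case: VC dimension at most `4 g ^ 2` (signs), packing of the columns, a rectangle with few
  zeros; the zeros are removed by a potential function: the rows and columns have the weights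
  `exp (-4 g |u| ^ 2)`, one projects off one vector and deletes its neighbours in every step.
* Sparse case: the rectangle with the largest `e ^ 2 / (m n)` has few ones in rows or columns of
  large degree, and a spectral count of four-cycles gives an edge whose neighbourhoods span a
  rectangle of density at least `1 / (1024 g ^ 2)`.
-/

set_option autoImplicit false

namespace Pool.Agent.Results.MP_db4732_co.SmallFactorizationNorm

open Pool.Agent.H700.GN
open scoped RealInnerProductSpace

/-- no `(x, y)`, `(x, y + z)`, `(x + z, y)` with `z ≠ 0` in `A` -/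
def CornerFree {G : Type} [AddCommGroup G] (A : Set (G × G)) : Prop :=
  ∀ x y z : G, z ≠ 0 → ¬ ((x, y) ∈ A ∧ (x, y + z) ∈ A ∧ (x + z, y) ∈ A)

/-- The points of `S` are given by a relation of factorization norm at most `g` between their row
and their column, or between their row and their diagonal `x + y`, or between their diagonal and
their column. -/
def Tame {G : Type} [AddCommGroup G] (g : ℝ) (S : Set (G × G)) : Prop :=
  FacNormLE (fun x y => (x, y) ∈ S) g ∨ FacNormLE (fun x s => (x, s - x) ∈ S) g ∨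
    FacNormLE (fun s y => (s - y, y) ∈ S) g

theorem one {G : Type} [AddCommGroup G] [Finite G] (g : ℕ) (hg : 1 ≤ g) (S : Set (G × G))
    (hS : CornerFree S) (ht : Tame g S) : Nat.card S ^ 2 ≤ 2 ^ (766 * g ^ 4) * Nat.card G ^ 3 := by
  rcases ht with h | h | h
  · have := labelled (fun x y => (x, y) ∈ S) g hg h (fun x y => x - y) (by
      intro x x' y y' _ h2 h3 h4 hxy
      by_contra hne
      have hz : x' - x ≠ 0 := by
        intro h0
        have e1 : x' = x := sub_eq_zero.mp h0
        subst e1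
        exact hne ⟨rfl, by simpa using hxy⟩
      have hy : y' = y + (x' - x) := by
        have : y' = x' - (x' - y') := by abel
        rw [this, ← hxy]
        abel
      refine hS x y (x' - x) hz ⟨by assumption, ?_, ?_⟩
      · rw [← hy]; exact h2
      · rw [add_sub_cancel]; exact h3)
    have e : Nat.card {p : G × G // (p.1, p.2) ∈ S} = Nat.card S := rfl
    rw [e] at this
    calc _ ≤ _ := this
      _ = _ := by ring
  · have := labelled (fun x s => (x, s - x) ∈ S) g hg h (fun x s => s - x) (by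
      intro x x' s s' h1 h2 h3 h4 hxy
      by_contra hne
      have hz : x' - x ≠ 0 := by
        intro h0
        have e1 : x' = x := sub_eq_zero.mp h0
        subst e1
        exact hne ⟨rfl, by simpa using hxy⟩
      refine hS x (s - x) (x' - x) hz ⟨h1, ?_, ?_⟩
      · have : s - x + (x' - x) = s' - x := by rw [hxy]; abel
        rw [this]; exact h2
      · have : x + (x' - x) = x' := by abel
        rw [this, hxy]; exact h4)
    have e : Nat.card {p : G × G // (p.1, p.2 - p.1) ∈ S} = Nat.card S := by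
      refine Nat.card_congr
        ⟨fun p => ⟨(p.1.1, p.1.2 - p.1.1), p.2⟩, fun q => ⟨(q.1.1, q.1.1 + q.1.2), by
          simp⟩, fun p => by ext <;> simp, fun q => by ext <;> simp⟩
    rw [e] at this
    calc _ ≤ _ := this
      _ = _ := by ring
  · have := labelled (fun s y => (s - y, y) ∈ S) g hg h (fun s y => s - y) (by
      intro s s' y y' h1 h2 h3 h4 hxy
      by_contra hne
      have hz : y' - y ≠ 0 := by
        intro h0
        have e1 : y' = y := sub_eq_zero.mp h0
        subst e1
        exact hne ⟨by simpa using hxy, rfl⟩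
      refine hS (s - y) y (y' - y) hz ⟨h1, ?_, ?_⟩
      · have : y + (y' - y) = y' := by abel
        rw [this, hxy]; exact h4
      · have : s - y + (y' - y) = s' - y := by rw [hxy]; abel
        rw [this]; exact h3)
    have e : Nat.card {p : G × G // (p.1 - p.2, p.2) ∈ S} = Nat.card S := by
      refine Nat.card_congr
        ⟨fun p => ⟨(p.1.1 - p.1.2, p.1.2), p.2⟩, fun q => ⟨(q.1.1 + q.1.2, q.1.2), by
          simp⟩, fun p => by ext <;> simp, fun q => by ext <;> simp⟩
    rw [e] at this
    calc _ ≤ _ := this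
      _ = _ := by ring

theorem union {G : Type} [AddCommGroup G] [Finite G] (g t : ℕ) (hg : 1 ≤ g) (A : Set (G × G))
    (hA : CornerFree A) (S : Fin t → Set (G × G)) (hS : A = ⋃ i, S i) (ht : ∀ i, Tame g (S i)) :
    Nat.card A ^ 2 ≤ t ^ 2 * 2 ^ (766 * g ^ 4) * Nat.card G ^ 3 := by
  have h1 : ∀ i, Nat.card (S i) ^ 2 ≤ 2 ^ (766 * g ^ 4) * Nat.card G ^ 3 := fun i =>
    one g hg (S i) (fun x y z hz h => hA x y z hz (by
      rw [hS]
      simp only [Set.mem_iUnion]
      exact ⟨⟨i, h.1⟩, ⟨i, h.2.1⟩, ⟨i, h.2.2⟩⟩)) (ht i)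
  have h2 : Nat.card A ≤ ∑ i, Nat.card (S i) := by
    have e : ∀ s : Set (G × G), Nat.card s = s.ncard := fun s => Nat.card_coe_set_eq s
    rw [e, hS]
    simp only [e]
    exact Set.ncard_iUnion_le_of_fintype S
  calc Nat.card A ^ 2 ≤ (∑ i, Nat.card (S i)) ^ 2 := Nat.pow_le_pow_left h2 2
    _ ≤ t * ∑ i, Nat.card (S i) ^ 2 := by
        have := sq_sum_le_card_mul_sum_sq (s := (Finset.univ : Finset (Fin t)))
          (f := fun i => (Nat.card (S i) : ℤ))
        rw [Finset.card_univ, Fintype.card_fin] at this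
        exact_mod_cast this
    _ ≤ t * ∑ _i : Fin t, 2 ^ (766 * g ^ 4) * Nat.card G ^ 3 :=
        Nat.mul_le_mul_left _ (Finset.sum_le_sum fun i _ => h1 i)
    _ = _ := by
        rw [Finset.sum_const, Finset.card_univ, Fintype.card_fin, smul_eq_mul]
        ring

theorem result :
    -- (1) all finite abelian groups: `|A| ≤ t 2^(383 g^4) |G|^(3/2)`
    (∀ (G : Type) [AddCommGroup G] [Finite G] (g t : ℕ), 1 ≤ g → ∀ A : Set (G × G),
      CornerFree A → ∀ S : Fin t → Set (G × G), A = ⋃ i, S i → (∀ i, Tame g (S i)) →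
      (Nat.card A : ℝ) ≤ t * 2 ^ (383 * g ^ 4) * (Nat.card G : ℝ) ^ (3 / 2 : ℝ)) ∧
    -- (2) `F_2 ^ n`: a power saving for unions of `2 ^ (n / 8)` sets of norm at most
    -- `n ^ (1 / 4) / 8`
    (∀ (n g t : ℕ), 1 ≤ g → 8 ^ 4 * g ^ 4 ≤ n → t ^ 8 ≤ 2 ^ n →
      ∀ A : Set ((Fin n → ZMod 2) × (Fin n → ZMod 2)), CornerFree A →
      ∀ S : Fin t → Set ((Fin n → ZMod 2) × (Fin n → ZMod 2)), A = ⋃ i, S i →
      (∀ i, Tame g (S i)) → (Nat.card A : ℝ) ≤ ((4 : ℝ) ^ n) ^ (7 / 8 : ℝ)) ∧
    -- (3) the exponent `3 / 2` is best possible, already for a relation of factorization norm one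
    (∀ (V : Type) [AddCommGroup V] [Finite V], ∃ A : Set ((V × V) × (V × V)),
      CornerFree A ∧ FacNormLE (fun x y => (x, y) ∈ A) 1 ∧
      Nat.card A ^ 2 = Nat.card (V × V) ^ 3) := by
  have main : ∀ (G : Type) [AddCommGroup G] [Finite G] (g t : ℕ), 1 ≤ g → ∀ A : Set (G × G),
      CornerFree A → ∀ S : Fin t → Set (G × G), A = ⋃ i, S i → (∀ i, Tame g (S i)) →
      (Nat.card A : ℝ) ≤ t * 2 ^ (383 * g ^ 4) * (Nat.card G : ℝ) ^ (3 / 2 : ℝ) := by
    intro G _ _ g t hg A hA S hS ht
    have h1 := union g t hg A hA S hS ht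
    have h2 : (Nat.card A : ℝ) ^ 2 ≤ t ^ 2 * 2 ^ (766 * g ^ 4) * (Nat.card G : ℝ) ^ 3 := by
      exact_mod_cast h1
    have hG : (0 : ℝ) ≤ Nat.card G := Nat.cast_nonneg _
    refine le_of_sq_le_sq ?_ (by positivity)
    calc (Nat.card A : ℝ) ^ 2 ≤ t ^ 2 * 2 ^ (766 * g ^ 4) * (Nat.card G : ℝ) ^ 3 := h2
      _ = (t * 2 ^ (383 * g ^ 4) * (Nat.card G : ℝ) ^ (3 / 2 : ℝ)) ^ 2 := by
          rw [mul_pow, mul_pow, ← pow_mul, ← Real.rpow_natCast ((Nat.card G : ℝ) ^ (3 / 2 : ℝ)) 2,
            ← Real.rpow_mul hG]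
          have e1 : (3 / 2 : ℝ) * ((2 : ℕ) : ℝ) = ((3 : ℕ) : ℝ) := by norm_num
          rw [e1, Real.rpow_natCast]
          congr 3
          ring
  refine ⟨main, ?_, ?_⟩
  · intro n g t hg hgn htn A hA S hS ht
    have h1 := main _ g t hg A hA S hS ht
    have hc : (Nat.card (Fin n → ZMod 2) : ℝ) = 2 ^ n := by
      rw [Nat.card_eq_fintype_card, Fintype.card_fun, ZMod.card, Fintype.card_fin]
      push_cast
      rfl
    rw [hc] at h1
    have h2 : (t : ℝ) ≤ (2 : ℝ) ^ ((n : ℝ) * (1 / 8)) := by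
      have e1 : (t : ℝ) ^ (8 : ℕ) ≤ (2 : ℝ) ^ n := by exact_mod_cast htn
      have e2 : ((2 : ℝ) ^ ((n : ℝ) * (1 / 8))) ^ (8 : ℕ) = (2 : ℝ) ^ n := by
        rw [← Real.rpow_natCast ((2 : ℝ) ^ ((n : ℝ) * (1 / 8))) 8, ← Real.rpow_mul (by norm_num),
          ← Real.rpow_natCast]
        congr 1
        push_cast
        ring
      rw [← e2] at e1
      exact le_of_pow_le_pow_left₀ (by norm_num) (by positivity) e1
    have h3 : (2 : ℝ) ^ (383 * g ^ 4) ≤ (2 : ℝ) ^ ((n : ℝ) * (1 / 8)) := by
      rw [← Real.rpow_natCast]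
      refine Real.rpow_le_rpow_of_exponent_le (by norm_num) ?_
      have : (8 : ℝ) ^ 4 * (g : ℝ) ^ 4 ≤ n := by exact_mod_cast hgn
      push_cast
      have h0 : (0 : ℝ) ≤ (g : ℝ) ^ 4 := by positivity
      nlinarith
    calc (Nat.card A : ℝ) ≤ t * 2 ^ (383 * g ^ 4) * ((2 : ℝ) ^ n) ^ (3 / 2 : ℝ) := h1
      _ ≤ (2 : ℝ) ^ ((n : ℝ) * (1 / 8)) * (2 : ℝ) ^ ((n : ℝ) * (1 / 8)) *
          ((2 : ℝ) ^ n) ^ (3 / 2 : ℝ) := by
          refine mul_le_mul_of_nonneg_right (mul_le_mul h2 h3 (by positivity) (by positivity))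
            (by positivity)
      _ = ((4 : ℝ) ^ n) ^ (7 / 8 : ℝ) := by
          rw [← Real.rpow_natCast 2 n, ← Real.rpow_natCast 4 n,
            show (4 : ℝ) = 2 ^ (2 : ℝ) by norm_num, ← Real.rpow_mul (by norm_num),
            ← Real.rpow_mul (by norm_num), ← Real.rpow_mul (by norm_num),
            ← Real.rpow_add (by norm_num), ← Real.rpow_add (by norm_num)]
          congr 1
          ring
  · intro V _ _
    refine ⟨{p | p.1.1 = p.2.2}, ?_, ?_, ?_⟩
    · rintro ⟨a, b⟩ ⟨c, d⟩ ⟨e, f⟩ hz ⟨h1, h2, h3⟩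
      simp only [Set.mem_ofPred_eq, Prod.fst_add, Prod.snd_add] at h1 h2 h3
      apply hz
      subst h1
      have e1 : e = 0 := by simpa using h3
      have e2 : f = 0 := by simpa using h2
      rw [e1, e2]
      rfl
    · exact facNorm_eq (fun x : V × V => x.1) (fun y : V × V => y.2)
    · have e : Nat.card {p : (V × V) × (V × V) | p.1.1 = p.2.2} = Nat.card (V × V × V) := by
        refine Nat.card_congr ⟨fun p => (p.1.1.1, p.1.1.2, p.1.2.1),
          fun q => ⟨((q.1, q.2.1), (q.2.2, q.1)), rfl⟩, fun p => ?_, fun q => rfl⟩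
        obtain ⟨⟨⟨a, b⟩, ⟨c, d⟩⟩, h⟩ := p
        have h' : a = d := h
        subst h'
        rfl
      rw [e]
      simp only [Nat.card_prod]
      ring

end Pool.Agent.Results.MP_db4732_co.SmallFactorizationNorm
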